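import Pool.Agent.H174.GM.Stmts3

/-!
# Project GM (helper174), part A2: right Magog trapezoids and Magog walks
-/

set_option autoImplicit false

namespace Pool.Agent.H722.GM174

open Pool.Agent.H174.GM
open Pool.Agent.R103.Gog

/-! ### trapezoids -/

/-- the extension of a right trapezoid by ones -/
def xe {n k : ℕ} (x : RightIdx n k → ℤ) (i j : ℕ) : ℤ :=
  if h : 1 ≤ j ∧ j ≤ i ∧ i ≤ n ∧ i + 1 ≤ j + k then x ⟨(i, j), h⟩ else 1

theorem xe_pos {n k : ℕ} (x : RightIdx n k → ℤ) {i j : ℕ}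
    (h : 1 ≤ j ∧ j ≤ i ∧ i ≤ n ∧ i + 1 ≤ j + k) : xe x i j = x ⟨(i, j), h⟩ := dif_pos h

theorem xe_neg {n k : ℕ} (x : RightIdx n k → ℤ) {i j : ℕ}
    (h : ¬ (1 ≤ j ∧ j ≤ i ∧ i ≤ n ∧ i + 1 ≤ j + k)) : xe x i j = 1 := dif_neg h

theorem mem_right {n k : ℕ} (x : RightIdx n k → ℤ) :
    x ∈ rightTrapezoids n k (IsMagog n) ↔ IsMagog n (xe x) := by
  constructor
  · rintro ⟨X, ⟨hX, hd⟩, hx⟩
    have e1 : ∀ i j, (1 ≤ j ∧ j ≤ i ∧ i ≤ n ∧ i + 1 ≤ j + k) → xe x i j = X i j := by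
      intro i j h
      rw [xe_pos x h, hx]
    have e2 : ∀ i j, 1 ≤ j → j ≤ i → i ≤ n → 1 ≤ xe x i j := by
      intro i j h1 h2 h3
      by_cases h : 1 ≤ j ∧ j ≤ i ∧ i ≤ n ∧ i + 1 ≤ j + k
      · rw [e1 i j h]
        exact hX.pos i j h1 h2 h3
      · rw [xe_neg x h]
    refine ⟨⟨e2, ?_, ?_⟩, ?_⟩
    · intro i j h1 h2 h3
      by_cases h : 1 ≤ j ∧ j ≤ i + 1 ∧ i + 1 ≤ n ∧ i + 1 + 1 ≤ j + k
      · rw [e1 _ _ h, e1 i j ⟨h1, h2, by omega, by omega⟩]
        exact hX.low i j h1 h2 h3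
      · rw [xe_neg x h]
        exact e2 i j h1 h2 (by omega)
    · intro i j h1 h2 h3
      by_cases h : 1 ≤ j ∧ j ≤ i ∧ i ≤ n ∧ i + 1 ≤ j + k
      · rw [e1 i j h, e1 (i + 1) (j + 1) ⟨by omega, by omega, h3, by omega⟩]
        exact hX.upp i j h1 h2 h3
      · rw [xe_neg x h]
        exact e2 (i + 1) (j + 1) (by omega) (by omega) h3
    · intro j h1 h2
      by_cases h : 1 ≤ j ∧ j ≤ j ∧ j ≤ n ∧ j + 1 ≤ j + k
      · rw [e1 j j h]
        exact hd j h1 h2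
      · rw [xe_neg x h]
        exact_mod_cast h1
  · intro h
    exact ⟨xe x, h, fun p => (xe_pos x p.2).symm⟩

theorem magog_le {n : ℕ} {X : ℕ → ℕ → ℤ} (h : IsMagog n X) {j : ℕ} (hj : 1 ≤ j) :
    ∀ i, j ≤ i → i ≤ n → X i j ≤ j := by
  intro i hji
  induction i, hji using Nat.le_induction with
  | base => exact fun hn => h.2 j hj hn
  | succ i hji ih =>
    intro hn
    exact (h.1.low i j hj hji hn).trans (ih (by omega))

/-! ### walks -/

/-- the entries of a walk -/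
def gw {n k : ℕ} (w : Fin (n + 1) → Fin k → ℕ) (t d : ℕ) : ℕ :=
  if h : t < n + 1 ∧ d < k then w ⟨t, h.1⟩ ⟨d, h.2⟩ else 0

theorem gw_of {n k : ℕ} (w : Fin (n + 1) → Fin k → ℕ) {t d : ℕ} (ht : t < n + 1) (hd : d < k) :
    gw w t d = w ⟨t, ht⟩ ⟨d, hd⟩ := dif_pos ⟨ht, hd⟩

/-- Magog walks in terms of the entries -/
structure Wk {n k : ℕ} (w : Fin (n + 1) → Fin k → ℕ) : Prop where
  z : ∀ d, d < k → gw w 0 d = 0
  up : ∀ t, t < n → ∀ d, d < k → gw w (t + 1) d ≤ gw w t d + 1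
  lo : ∀ t, t < n → ∀ d, d + 1 < k → gw w t d + 1 ≤ gw w (t + 1) (d + 1)
  one : ∀ t, t < n → ∀ d, d < k → 1 ≤ gw w (t + 1) d

theorem wk_iff {n k : ℕ} (w : Fin (n + 1) → Fin k → ℕ) : (w 0 = (fun _ => 0) ∧
    ∀ t : Fin n, Step (w t.castSucc) (w t.succ) ∧ ∀ i, 1 ≤ w t.succ i) ↔ Wk w := by
  constructor
  · rintro ⟨h0, h⟩
    refine ⟨fun d hd => ?_, fun t ht d hd => ?_, fun t ht d hd => ?_, fun t ht d hd => ?_⟩
    · rw [gw_of w (Nat.succ_pos n) hd]
      exact congrFun h0 ⟨d, hd⟩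
    · rw [gw_of w (Nat.succ_lt_succ ht) hd, gw_of w (Nat.lt_succ_of_lt ht) hd]
      exact (h ⟨t, ht⟩).1.1 ⟨d, hd⟩
    · rw [gw_of w (Nat.succ_lt_succ ht) hd, gw_of w (Nat.lt_succ_of_lt ht) (by omega)]
      exact (h ⟨t, ht⟩).1.2 ⟨d, by omega⟩ ⟨d + 1, hd⟩ rfl
    · rw [gw_of w (Nat.succ_lt_succ ht) hd]
      exact (h ⟨t, ht⟩).2 ⟨d, hd⟩
  · intro h
    refine ⟨funext fun d => ?_, fun t => ⟨⟨fun d => ?_, fun d d' hdd => ?_⟩, fun d => ?_⟩⟩
    · have h1 := h.z d.1 d.2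
      rw [gw_of w (Nat.succ_pos n) d.2] at h1
      exact h1
    · have h1 := h.up t.1 t.2 d.1 d.2
      rw [gw_of w (Nat.succ_lt_succ t.2) d.2, gw_of w (Nat.lt_succ_of_lt t.2) d.2] at h1
      exact h1
    · have h1 := h.lo t.1 t.2 d.1 (by omega)
      rw [gw_of w (Nat.succ_lt_succ t.2) (by omega), gw_of w (Nat.lt_succ_of_lt t.2) d.2] at h1
      have h2 : (⟨d.1 + 1, by omega⟩ : Fin k) = d' := Fin.ext hdd
      rw [h2] at h1
      exact h1
    · have h1 := h.one t.1 t.2 d.1 d.2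
      rw [gw_of w (Nat.succ_lt_succ t.2) d.2] at h1
      exact h1

theorem wk_le {n k : ℕ} {w : Fin (n + 1) → Fin k → ℕ} (h : Wk w) {d : ℕ} (hd : d < k) :
    ∀ t, t ≤ n → gw w t d ≤ t := by
  intro t
  induction t with
  | zero => exact fun _ => (h.z d hd).le
  | succ t ih =>
    intro ht
    have h1 := h.up t (by omega) d hd
    have h2 := ih (by omega)
    omega

theorem wk_eq {n k : ℕ} {w : Fin (n + 1) → Fin k → ℕ} (h : Wk w) :
    ∀ t, t ≤ n → ∀ d, d < k → t ≤ d + 1 → gw w t d = t := by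
  intro t
  induction t with
  | zero => exact fun _ d hd _ => h.z d hd
  | succ t ih =>
    intro ht d hd htd
    have h1 := wk_le h hd (t + 1) ht
    rcases d with _ | d
    · have h2 := h.one t (by omega) 0 hd
      omega
    · have h2 := h.lo t (by omega) d hd
      have h3 := ih (by omega) d (by omega) (by omega)
      omega

/-! ### the bijection -/

/-- from trapezoids to walks -/
def toW {n k : ℕ} (x : RightIdx n k → ℤ) : Fin (n + 1) → Fin k → ℕ := fun t d =>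
  if d.1 + 1 ≤ t.1 then ((t.1 : ℤ) + 1 - xe x t.1 (t.1 - d.1)).toNat else t.1

/-- from walks to trapezoids -/
def ofW {n k : ℕ} (w : Fin (n + 1) → Fin k → ℕ) : RightIdx n k → ℤ := fun p =>
  (p.1.1 : ℤ) + 1 - gw w p.1.1 (p.1.1 - p.1.2)

theorem gw_toW {n k : ℕ} (x : RightIdx n k → ℤ) (hx : IsMagog n (xe x)) {t d : ℕ} (ht : t ≤ n)
    (hd : d < k) : (d + 1 ≤ t → (gw (toW x) t d : ℤ) = t + 1 - xe x t (t - d)) ∧
      (t < d + 1 → gw (toW x) t d = t) := by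
  rw [gw_of (toW x) (Nat.lt_succ_of_le ht) hd]
  constructor
  · intro h
    unfold toW
    rw [if_pos h]
    have h1 := magog_le hx (j := t - d) (by omega) t (by omega) ht
    have h2 : ((t - d : ℕ) : ℤ) ≤ t := by exact_mod_cast Nat.sub_le t d
    exact Int.toNat_of_nonneg (by simp only; omega)
  · intro h
    unfold toW
    rw [if_neg (by simp only; omega)]

theorem toW_mem {n k : ℕ} (x : RightIdx n k → ℤ) (hx : IsMagog n (xe x)) : Wk (toW x) := by
  refine ⟨fun d hd => ?_, fun t ht d hd => ?_, fun t ht d hd => ?_, fun t ht d hd => ?_⟩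
  · exact (gw_toW x hx (Nat.zero_le n) hd).2 (by omega)
  · obtain ⟨a1, a2⟩ := gw_toW x hx (t := t) (by omega) hd
    obtain ⟨b1, b2⟩ := gw_toW x hx (t := t + 1) ht hd
    by_cases h : d + 1 ≤ t
    · have h1 := a1 h
      have h2 := b1 (by omega)
      have h3 := hx.1.upp t (t - d) (by omega) (by omega) ht
      rw [show t - d + 1 = t + 1 - d by omega] at h3
      push_cast at h2
      omega
    · have h1 := a2 (by omega)
      by_cases h' : d + 1 ≤ t + 1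
      · have h2 := b1 h'
        have h3 := hx.1.pos (t + 1) (t + 1 - d) (by omega) (by omega) ht
        push_cast at h2
        omega
      · have h2 := b2 (by omega)
        omega
  · obtain ⟨a1, a2⟩ := gw_toW x hx (t := t) (d := d) (by omega) (by omega)
    obtain ⟨b1, b2⟩ := gw_toW x hx (t := t + 1) ht hd
    by_cases h : d + 1 ≤ t
    · have h1 := a1 h
      have h2 := b1 (by omega)
      have h3 := hx.1.low t (t - d) (by omega) (by omega) ht
      rw [show t + 1 - (d + 1) = t - d by omega] at h2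
      push_cast at h2
      omega
    · have h1 := a2 (by omega)
      have h2 := b2 (by omega)
      omega
  · obtain ⟨b1, b2⟩ := gw_toW x hx (t := t + 1) ht hd
    by_cases h' : d + 1 ≤ t + 1
    · have h2 := b1 h'
      have h3 := magog_le hx (j := t + 1 - d) (by omega) (t + 1) (by omega) ht
      push_cast at h2
      omega
    · have h2 := b2 (by omega)
      omega

theorem toW_inj {n k : ℕ} (x y : RightIdx n k → ℤ) (hx : IsMagog n (xe x))
    (hy : IsMagog n (xe y)) (h : toW x = toW y) : x = y := by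
  funext p
  obtain ⟨⟨i, j⟩, hp⟩ := p
  have hp' : 1 ≤ j ∧ j ≤ i ∧ i ≤ n ∧ i + 1 ≤ j + k := hp
  have h1 := (gw_toW x hx (t := i) (d := i - j) hp'.2.2.1 (by omega)).1 (by omega)
  have h2 := (gw_toW y hy (t := i) (d := i - j) hp'.2.2.1 (by omega)).1 (by omega)
  rw [h, h2] at h1
  rw [show i - (i - j) = j by omega, xe_pos x hp', xe_pos y hp'] at h1
  linarith

theorem xe_ofW {n k : ℕ} (w : Fin (n + 1) → Fin k → ℕ) {i j : ℕ}
    (h : 1 ≤ j ∧ j ≤ i ∧ i ≤ n ∧ i + 1 ≤ j + k) : xe (ofW w) i j = (i : ℤ) + 1 - gw w i (i - j) := by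
  rw [xe_pos _ h]
  rfl

theorem ofW_mem {n k : ℕ} (w : Fin (n + 1) → Fin k → ℕ) (hw : Wk w) : IsMagog n (xe (ofW w)) := by
  have e2 : ∀ i j, 1 ≤ j → j ≤ i → i ≤ n → 1 ≤ xe (ofW w) i j := by
    intro i j h1 h2 h3
    by_cases h : 1 ≤ j ∧ j ≤ i ∧ i ≤ n ∧ i + 1 ≤ j + k
    · rw [xe_ofW w h]
      have h4 := wk_le hw (d := i - j) (by omega) i h3
      omega
    · rw [xe_neg _ h]
  refine ⟨⟨e2, ?_, ?_⟩, ?_⟩
  · intro i j h1 h2 h3
    by_cases h : 1 ≤ j ∧ j ≤ i + 1 ∧ i + 1 ≤ n ∧ i + 1 + 1 ≤ j + k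
    · rw [xe_ofW w h, xe_ofW w (i := i) (j := j) ⟨h1, h2, by omega, by omega⟩]
      have h4 := hw.lo i (by omega) (i - j) (by omega)
      rw [show i - j + 1 = i + 1 - j by omega] at h4
      push_cast
      omega
    · rw [xe_neg _ h]
      exact e2 i j h1 h2 (by omega)
  · intro i j h1 h2 h3
    by_cases h : 1 ≤ j ∧ j ≤ i ∧ i ≤ n ∧ i + 1 ≤ j + k
    · rw [xe_ofW w h, xe_ofW w (i := i + 1) (j := j + 1) ⟨by omega, by omega, h3, by omega⟩]
      have h4 := hw.up i (by omega) (i - j) (by omega)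
      rw [show i + 1 - (j + 1) = i - j by omega]
      push_cast
      omega
    · rw [xe_neg _ h]
      exact e2 (i + 1) (j + 1) (by omega) (by omega) h3
  · intro j h1 h2
    by_cases h : 1 ≤ j ∧ j ≤ j ∧ j ≤ n ∧ j + 1 ≤ j + k
    · rw [xe_ofW w h]
      obtain ⟨j, rfl⟩ : ∃ j', j = j' + 1 := ⟨j - 1, by omega⟩
      have h4 := hw.one j (by omega) 0 (by omega)
      rw [show j + 1 - (j + 1) = 0 by omega]
      push_cast
      omega
    · rw [xe_neg _ h]
      exact_mod_cast h1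

theorem toW_ofW {n k : ℕ} (w : Fin (n + 1) → Fin k → ℕ) (hw : Wk w) : toW (ofW w) = w := by
  funext t d
  have ht : t.1 ≤ n := Nat.le_of_lt_succ t.2
  have h1 := gw_toW (ofW w) (ofW_mem w hw) (t := t.1) (d := d.1) ht d.2
  have h2 := gw_of (toW (ofW w)) (t := t.1) (d := d.1) t.2 d.2
  have h3 := gw_of w (t := t.1) (d := d.1) t.2 d.2
  have h4 : gw (toW (ofW w)) t.1 d.1 = gw w t.1 d.1 := by
    by_cases h : d.1 + 1 ≤ t.1
    · have h5 := h1.1 h
      rw [xe_ofW w ⟨by omega, by omega, ht, by omega⟩, show t.1 - (t.1 - d.1) = d.1 by omega] at h5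
      omega
    · rw [h1.2 (by omega), wk_eq hw t.1 ht d.1 d.2 (by omega)]
  rw [h2, h3] at h4
  exact h4

theorem a2 (h1 : S_WM) : Pool.Agent.H174.GM.S_A2 := by
  intro n k hk hkn
  rw [h1 k n]
  refine Set.ncard_congr (fun x _ => toW x) ?_ ?_ ?_
  · intro x hx
    exact (wk_iff _).2 (toW_mem x ((mem_right x).1 hx))
  · intro x y hx hy h
    exact toW_inj x y ((mem_right x).1 hx) ((mem_right y).1 hy) h
  · intro w hw
    have hw' := (wk_iff w).1 hw
    exact ⟨ofW w, (mem_right _).2 (ofW_mem w hw'), toW_ofW w hw'⟩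

end Pool.Agent.H722.GM174
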